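import Pool.Agent.H3.BES.Asm
import Pool.Agent.H20.ENM.QMS
import Pool.Agent.H21.BS.All

/-!
# N4, section BES: the theorem
-/

set_option autoImplicit false

open Finset Pool.Agent.H6.N4D Pool.Agent.H93.EB

namespace Pool.Agent.H3.BES

theorem msu_of (h : Pool.Agent.H70.EN.T_QMS) : T_MSU := by
  obtain ⟨m₀, hm⟩ := h
  refine ⟨3 + ∑ j ∈ range m₀, ∑ q ∈ QQ j, 1 / (q : ℝ), ?_⟩
  have h0 : ∀ j, 0 ≤ ∑ q ∈ QQ j, 1 / (q : ℝ) := fun j => sum_nonneg fun q _ => by positivity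
  intro m
  rcases Nat.lt_or_ge m m₀ with h1 | h1
  · have h2 : ∑ q ∈ QQ m, 1 / (q : ℝ) ≤ ∑ j ∈ range m₀, ∑ q ∈ QQ j, 1 / (q : ℝ) :=
      single_le_sum (f := fun j => ∑ q ∈ QQ j, 1 / (q : ℝ)) (fun j _ => h0 j) (mem_range.mpr h1)
    linarith
  · have h2 := (hm m h1).2
    have h3 : 0 ≤ ∑ j ∈ range m₀, ∑ q ∈ QQ j, 1 / (q : ℝ) := sum_nonneg fun j _ => h0 j
    linarith

/-- the inequality of Bessel for many levels -/
theorem bes : Pool.Agent.H93.EB.T_BES :=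
  bes_of Pool.Agent.H21.BS.bes Pool.Agent.H21.BS.nc0 (msu_of Pool.Agent.H20.ENM.pf_QMS)

end Pool.Agent.H3.BES
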