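import Pool.Agent.H21.BS.Targets
import Pool.Agent.H93.EB.Basic
import Pool.Agent.H93.EB.Targets

/-!
# N4 (MP_c59857_nt), section BES: sliding windows with logarithmic weights, statements
-/

set_option autoImplicit false

open Finset Pool.Agent.H6.N4D Pool.Agent.H93.EB

namespace Pool.Agent.H3.BES

/-- the threshold of level m -/
noncomputable def kp (m : ℕ) : ℝ := (1 / 2 : ℝ) ^ (m / 2400)

/-- the energy of the tests of one window (n, n + 2 ^ m] -/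
noncomputable def Phi (lam : ℕ → ℝ) (m : ℕ) (α : ℕ → ℝ) (g : ℕ → ℕ → ℂ) (n : ℕ) : ℝ :=
  ∑ q ∈ QQ m, 1 / (q : ℝ) * zz lam q (2 ^ m) n (α q) (g q) ^ 2

/-- the mean square distance to a sum of R exponentials on the window (n, n + 2 ^ s] -/
noncomputable def err (lam : ℕ → ℝ) (R s : ℕ) (b : ℕ → ℕ → ℂ) (β : ℕ → ℕ → ℝ) (n : ℕ) : ℝ :=
  (∑ x ∈ Ioc n (n + 2 ^ s),
    ‖(lam x : ℂ) - ∑ r ∈ range R, b n r * ee (β n r * x)‖ ^ 2) / 2 ^ s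

/-- the condition on the frequencies of a window of level m -/
def NC (m : ℕ) (α : ℕ → ℝ) : Prop :=
  Pool.Agent.H21.BS.badmass (4 ^ (m / 2)) (kp m) (QQ m) α ≤ kp m

/-- MSU: the mass of the primes of one level is bounded. -/
def T_MSU : Prop := ∃ W : ℝ, ∀ m : ℕ, ∑ q ∈ QQ m, 1 / (q : ℝ) ≤ W

/-- ONE: the inequality on one interval (u, u + L], L = 2 ^ (2 (m (K - 1) / 2) + 1). -/
def T_ONE : Prop := ∀ W : ℝ, ∃ C : ℝ, 0 ≤ C ∧ ∀ (K s R u : ℕ) (m : ℕ → ℕ)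
  (α : ℕ → ℕ → ℕ → ℝ) (g : ℕ → ℕ → ℕ → ℕ → ℂ) (lam : ℕ → ℝ) (b : ℕ → ℕ → ℂ) (β : ℕ → ℕ → ℝ),
  1 ≤ K → 1 ≤ s → (∀ n, |lam n| ≤ 1) → (∀ j, ∑ q ∈ QQ j, 1 / (q : ℝ) ≤ W) →
  2400 * s ≤ m 0 → (∀ i, i + 1 < K → 2400 * m i ≤ m (i + 1)) →
  (∀ i < K, ∀ n, ∀ q ∈ QQ (m i), BV (2 ^ m i) n (g i n q)) →
  (∀ i < K, ∀ n, NC (m i) (α i n)) → (∀ n r, ‖b n r‖ ≤ 1) →
  ∑ i ∈ range K, (2 : ℝ) ^ m i / 2 ^ (2 * (m (K - 1) / 2) + 1) *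
      ∑ k ∈ range (2 ^ (2 * (m (K - 1) / 2) + 1) / 2 ^ m i),
        Phi lam (m i) (α i (u + k * 2 ^ m i)) (g i (u + k * 2 ^ m i)) (u + k * 2 ^ m i) ≤
    2 * ((2 : ℝ) ^ s / 2 ^ (2 * (m (K - 1) / 2) + 1) *
      ∑ k ∈ range (2 ^ (2 * (m (K - 1) / 2) + 1) / 2 ^ s), err lam R s b β (u + k * 2 ^ s)) +
    C * ((K : ℝ) ^ 2 + K * R) * ((2 : ℝ) ^ (s / 2)) ^ (-(1 / 5) : ℝ)

/-- GEN: sliding windows, frequencies with few bad quadruples. -/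
def T_GEN : Prop := ∃ (B : ℕ) (C : ℝ), 1 ≤ B ∧ 0 < C ∧ ∀ R : ℕ, ∃ s₀ : ℕ,
  ∀ (s X K k₁ : ℕ) (lam : ℕ → ℝ) (e : ℝ) (m : ℕ → ℕ) (α : ℕ → ℕ → ℕ → ℝ)
    (g : ℕ → ℕ → ℕ → ℕ → ℂ),
    s₀ ≤ s → 3 ≤ X → (∀ n, |lam n| ≤ 1) → Base lam R (2 ^ s) e X → K ≤ 2 ^ (s / B) →
    B * s ≤ m 0 → (∀ i, i + 1 < K → B * m i ≤ m (i + 1)) → (∀ i < K, m i ≤ k₁) →
    (∀ i < K, ∀ n, ∀ q ∈ QQ (m i), BV (2 ^ m i) n (g i n q)) →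
    (∀ i < K, ∀ n, NC (m i) (α i n)) →
    ∑ i ∈ range K, lg X (fun n => Phi lam (m i) (α i n) (g i n) n) ≤
      (C * e + (1 / 2) ^ (s / B)) * Real.log X + C * K * (k₁ + 1)

end Pool.Agent.H3.BES
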