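import Pool.Agent.H3.BES.OneC

/-!
# N4, section BES: one interval
-/

set_option autoImplicit false

open Finset Pool.Agent.H6.N4D Pool.Agent.H93.EB

namespace Pool.Agent.H3.BES

/-- the approximation of lam on the interval (u, u + L] -/
noncomputable def FF (u s R : ℕ) (b : ℕ → ℕ → ℂ) (β : ℕ → ℕ → ℝ) (y : ℕ) : ℂ :=
  ∑ r ∈ range R, b (u + (y - (u + 1)) / 2 ^ s * 2 ^ s) r *
    ee (β (u + (y - (u + 1)) / 2 ^ s * 2 ^ s) r * y)

section

variable {K s u : ℕ} {m : ℕ → ℕ} {α : ℕ → ℕ → ℕ → ℝ} {g : ℕ → ℕ → ℕ → ℕ → ℂ}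

lemma SS_exps (R : ℕ) (b : ℕ → ℕ → ℂ) (β : ℕ → ℕ → ℝ) (hb : ∀ n r, ‖b n r‖ ≤ 1) :
    (SS K s u m α g).Exps R (FF u s R b β) := by
  intro k _
  refine ⟨fun r => b (u + k / 2 ^ (s % 2) * 2 ^ s) r,
    fun r => β (u + k / 2 ^ (s % 2) * 2 ^ s) r, fun r => hb _ _, ?_⟩
  intro x hx
  rw [SS_N] at hx ⊢
  have hex : ex s m 0 = s / 2 := by simp [ex]
  rw [hex] at hx ⊢
  have hU : (SS K s u m α g).U = u + 1 := rfl
  rw [hU]
  unfold FF
  have h1 : (u + 1 + k * (2 ^ (s / 2)) ^ 2 + x - (u + 1)) / 2 ^ s = k / 2 ^ (s % 2) := by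
    have h2 : u + 1 + k * (2 ^ (s / 2)) ^ 2 + x - (u + 1) = (2 ^ (s / 2)) ^ 2 * k + x := by
      rw [mul_comm k]
      omega
    rw [h2, two_pow_half s, mul_comm (2 ^ (s % 2)) ((2 ^ (s / 2)) ^ 2),
      ← Nat.div_div_eq_div_mul, Nat.mul_add_div (by positivity), Nat.div_eq_of_lt hx, add_zero]
  rw [h1, Finset.sum_range]

lemma SS_avr (lam : ℕ → ℝ) (R : ℕ) (b : ℕ → ℕ → ℂ) (β : ℕ → ℕ → ℝ)
    (hdvd : 2 ^ s ∣ (SS K s u m α g).L) :
    Pool.Agent.H21.BS.avr (SS K s u m α g).U (SS K s u m α g).L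
      (fun n => ‖(lam n : ℂ) - FF u s R b β n‖ ^ 2) =
    (2 : ℝ) ^ s / ((SS K s u m α g).L : ℝ) *
      ∑ k ∈ range ((SS K s u m α g).L / 2 ^ s), err lam R s b β (u + k * 2 ^ s) := by
  unfold Pool.Agent.H21.BS.avr
  set L := (SS K s u m α g).L with hL
  have hU : (SS K s u m α g).U = u + 1 := rfl
  rw [hU]
  obtain ⟨c, hc⟩ := hdvd
  have hdiv : L / 2 ^ s = c := by rw [hc, Nat.mul_div_cancel_left _ (by positivity)]
  rw [hdiv]
  have h1 : ∑ x ∈ range L, ‖(lam (u + 1 + x) : ℂ) - FF u s R b β (u + 1 + x)‖ ^ 2 =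
      ∑ k ∈ range c, (2 : ℝ) ^ s * err lam R s b β (u + k * 2 ^ s) := by
    rw [hc, sum_range_mul']
    refine sum_congr rfl fun k _ => ?_
    unfold err
    rw [mul_div_cancel₀ _ (by positivity), sum_Ioc_range]
    refine sum_congr rfl fun x hx => ?_
    rw [mem_range] at hx
    have h2 : u + 1 + (2 ^ s * k + x) = u + k * 2 ^ s + 1 + x := by ring
    rw [h2]
    unfold FF
    have h3 : (u + k * 2 ^ s + 1 + x - (u + 1)) / 2 ^ s = k := by
      have h4 : u + k * 2 ^ s + 1 + x - (u + 1) = 2 ^ s * k + x := by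
        rw [mul_comm k]
        omega
      rw [h4, Nat.mul_add_div (by positivity), Nat.div_eq_of_lt hx, add_zero]
    rw [h3]
  rw [h1, ← mul_sum]
  ring

end

lemma sum_Icc_range (K : ℕ) (f : ℕ → ℝ) : ∑ i ∈ Icc 1 K, f i = ∑ j ∈ range K, f (j + 1) := by
  induction K with
  | zero => simp
  | succ K ih => rw [sum_Icc_succ_top (by omega), ih, sum_range_succ]

theorem sw_ONE (h : Pool.Agent.H21.BS.T_BES) : T_ONE := by
  intro W
  obtain ⟨C, hC, hB⟩ := h W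
  refine ⟨C, hC, ?_⟩
  intro K s R u m α g lam b β hK hs hlam hW hm0 hm hg hN hb
  set S := SS K s u m α g with hS
  have hSL : S.L = 2 ^ (2 * (m (K - 1) / 2) + 1) := SS_L hK
  have hok : S.Ok W := SS_ok hK hW hm0 hm hg hN
  have hLpos : 0 < S.L := by rw [hSL]; positivity
  have hmono := mono_of_step hm
  have hdj : ∀ j < K, 2 ^ m j ∣ S.L := by
    intro j hj
    rw [hSL]
    apply pow_dvd_pow
    have := hmono (K - 1) j (by omega) (by omega)
    omega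
  have hds : 2 ^ s ∣ S.L := by
    rw [hSL]
    apply pow_dvd_pow
    have := hmono (K - 1) 0 (by omega) (by omega)
    omega
  have hmain := hB S R (fun n => (lam n : ℂ)) (FF u s R b β) hok
    (fun n => by simpa using hlam n) (SS_exps R b β hb)
  rw [SS_avr lam R b β hds] at hmain
  have hE : ∑ i ∈ range K, (2 : ℝ) ^ m i / 2 ^ (2 * (m (K - 1) / 2) + 1) *
      ∑ k ∈ range (2 ^ (2 * (m (K - 1) / 2) + 1) / 2 ^ m i),
        Phi lam (m i) (α i (u + k * 2 ^ m i)) (g i (u + k * 2 ^ m i)) (u + k * 2 ^ m i) ≤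
      S.E (fun n => (lam n : ℂ)) := by
    unfold Pool.Agent.H21.BS.Sys.E
    have hSK : S.K = K := rfl
    rw [hSK, sum_Icc_range]
    refine sum_le_sum fun j hj => ?_
    rw [mem_range] at hj
    have h1 := level_le (K := K) (s := s) (u := u) (m := m) (α := α) (g := g) lam (hdj j hj) hLpos
    rw [← hS] at h1
    rw [hSL] at h1 ⊢
    push_cast at h1 ⊢
    exact h1
  have hs0 : ((S.s 0 : ℕ) : ℝ) = (2 : ℝ) ^ (s / 2) := by
    rw [hS]
    simp [SS, ex]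
  have hSK : (S.K : ℝ) = K := rfl
  rw [hs0, hSK, ← hS, hSL] at hmain
  push_cast at hmain
  linarith

end Pool.Agent.H3.BES
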