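import Pool.Agent.H3.BES.CLA
import Pool.Agent.H3.BES.ONE
import Pool.Agent.H46.BES.GEN
import Pool.Agent.H1.BES.FIN

/-!
# N4, section BES: assembly up to the analytic inequality
-/

set_option autoImplicit false

namespace Pool.Agent.H3.BES

/-- sliding windows from the inequality on one interval -/
theorem bes_of (hb : Pool.Agent.H21.BS.T_BES) (h0 : Pool.Agent.H21.BS.T_NC0) (hm : T_MSU) :
    Pool.Agent.H93.EB.T_BES :=
  Pool.Agent.H1.BES.sw_FIN (Pool.Agent.H46.BES.sw_GEN (sw_ONE hb) hm) hm h0 clu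

end Pool.Agent.H3.BES
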