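import Pool.Agent.H3.BES.Targets

open Finset

namespace Pool.Agent.H3.BES

lemma div_int_of_dvd {q : ℕ} (hq : 0 < q) {a : ℤ} (h : (q : ℤ) ∣ a) :
    ∃ m : ℤ, (a : ℝ) / q = m := by
  obtain ⟨m, rfl⟩ := h
  refine ⟨m, ?_⟩
  have : (q : ℝ) ≠ 0 := by positivity
  push_cast
  field_simp

theorem clu_NBR (hP : T_PFR) : T_NBR := by
  intro al eta R q1 q2 q3 r1 r2 r3 N heta hR hpr hq hr hqr hN
  classical
  by_cases hNe : N = ∅
  · subst hNe
    exact ⟨0, by simp⟩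
  obtain ⟨q0, hq0⟩ := Finset.nonempty_iff_ne_empty.mpr hNe
  obtain ⟨hq0p, hq0R, hq0n, ⟨a1, a2, a3, a4, ha1, ha2, ha3, ha4, ha⟩,
    ⟨b1, b2, b3, b4, hb1, hb2, hb3, hb4, hb⟩⟩ := hN q0 hq0
  simp only [mem_insert, mem_singleton, not_or] at hq0n
  obtain ⟨h12, h13, h23⟩ := hq
  obtain ⟨g12, g13, g23⟩ := hr
  obtain ⟨k11, k12, k13, k21, k22, k23, k31, k32, k33⟩ := hqr
  have P1 := hpr q1 (by simp)
  have P2 := hpr q2 (by simp)
  have P3 := hpr q3 (by simp)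
  have Q1 := hpr r1 (by simp)
  have Q2 := hpr r2 (by simp)
  have Q3 := hpr r3 (by simp)
  refine ⟨-(al q1 - al q2 - al q3) + ((a1 : ℝ) / q1 + a2 / q2 + a3 / q3), ?_⟩
  intro q hqN
  by_cases hqq : q = q0
  · subst hqq
    refine ⟨a4, ha4, ?_⟩
    rw [show al q - (-(al q1 - al q2 - al q3) + ((a1 : ℝ) / q1 + a2 / q2 + a3 / q3)) - (a4 : ℝ) / q
      = al q1 - al q2 - al q3 + al q - ((a1 : ℝ) / q1 + a2 / q2 + a3 / q3 + a4 / q) by ring]
    exact ha
  obtain ⟨hqp, hqR, hqn, ⟨c1, c2, c3, c4, hc1, hc2, hc3, hc4, hc⟩,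
    ⟨d1, d2, d3, d4, hd1, hd2, hd3, hd4, hd⟩⟩ := hN q hqN
  simp only [mem_insert, mem_singleton, not_or] at hqn
  obtain ⟨m1, m2, m3, m4, m5, m6⟩ := hqn
  obtain ⟨n1, n2, n3, n4, n5, n6⟩ := hq0n
  -- the coefficient function
  set c : ℕ → ℤ := fun p =>
    if p = q1 then c1 - a1 else if p = q2 then c2 - a2 else if p = q3 then c3 - a3 else
    if p = r1 then b1 - d1 else if p = r2 then b2 - d2 else if p = r3 then b3 - d3 else
    if p = q then c4 - d4 else if p = q0 then b4 - a4 else 0 with hcdef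
  have e1 : c q1 = c1 - a1 := by simp [hcdef]
  have e2 : c q2 = c2 - a2 := by simp [hcdef, Ne.symm h12]
  have e3 : c q3 = c3 - a3 := by simp [hcdef, Ne.symm h13, Ne.symm h23]
  have e4 : c r1 = b1 - d1 := by simp [hcdef, Ne.symm k11, Ne.symm k21, Ne.symm k31]
  have e5 : c r2 = b2 - d2 := by
    simp [hcdef, Ne.symm k12, Ne.symm k22, Ne.symm k32, Ne.symm g12]
  have e6 : c r3 = b3 - d3 := by
    simp [hcdef, Ne.symm k13, Ne.symm k23, Ne.symm k33, Ne.symm g13, Ne.symm g23]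
  have e7 : c q = c4 - d4 := by simp [hcdef, m1, m2, m3, m4, m5, m6]
  have e8 : c q0 = b4 - a4 := by
    simp [hcdef, n1, n2, n3, n4, n5, n6, Ne.symm hqq]
  set s : Finset ℕ := {q1, q2, q3, r1, r2, r3, q, q0} with hs
  have hsum : ∀ g : ℕ → ℝ, ∑ p ∈ s, g p = g q1 + (g q2 + (g q3 + (g r1 + (g r2 + (g r3 +
      (g q + g q0)))))) := by
    intro g
    rw [hs, sum_insert, sum_insert, sum_insert, sum_insert, sum_insert, sum_insert, sum_insert,
      sum_singleton]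
    all_goals simp only [mem_insert, mem_singleton, not_or]
    · exact hqq
    · exact ⟨Ne.symm m6, Ne.symm n6⟩
    · exact ⟨g23, Ne.symm m5, Ne.symm n5⟩
    · exact ⟨g12, g13, Ne.symm m4, Ne.symm n4⟩
    · exact ⟨k31, k32, k33, Ne.symm m3, Ne.symm n3⟩
    · exact ⟨h23, k21, k22, k23, Ne.symm m2, Ne.symm n2⟩
    · exact ⟨h12, h13, k11, k12, k13, Ne.symm m1, Ne.symm n1⟩
  have hprod : ∀ g : ℕ → ℝ, ∏ p ∈ s, g p = g q1 * (g q2 * (g q3 * (g r1 * (g r2 * (g r3 *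
      (g q * g q0)))))) := by
    intro g
    rw [hs, prod_insert, prod_insert, prod_insert, prod_insert, prod_insert, prod_insert,
      prod_insert, prod_singleton]
    all_goals simp only [mem_insert, mem_singleton, not_or]
    · exact hqq
    · exact ⟨Ne.symm m6, Ne.symm n6⟩
    · exact ⟨g23, Ne.symm m5, Ne.symm n5⟩
    · exact ⟨g12, g13, Ne.symm m4, Ne.symm n4⟩
    · exact ⟨k31, k32, k33, Ne.symm m3, Ne.symm n3⟩
    · exact ⟨h23, k21, k22, k23, Ne.symm m2, Ne.symm n2⟩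
    · exact ⟨h12, h13, k11, k12, k13, Ne.symm m1, Ne.symm n1⟩
  have hsp : ∀ p ∈ s, p.Prime := by
    intro p hp
    simp only [hs, mem_insert, mem_singleton] at hp
    rcases hp with rfl | rfl | rfl | rfl | rfl | rfl | rfl | rfl
    · exact P1.1
    · exact P2.1
    · exact P3.1
    · exact Q1.1
    · exact Q2.1
    · exact Q3.1
    · exact hqp
    · exact hq0p
  have hsR : ∏ p ∈ s, (p : ℝ) ≤ (R : ℝ) ^ 8 := by
    have hcard : s.card ≤ 8 := by
      have h8 : s = ([q1, q2, q3, r1, r2, r3, q, q0] : List ℕ).toFinset := by simp [hs]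
      rw [h8]
      exact (List.toFinset_card_le _).trans (by simp)
    have hRle : ∀ p ∈ s, (p : ℝ) ≤ R := by
      intro p hp
      simp only [hs, mem_insert, mem_singleton] at hp
      have : p ≤ R := by
        rcases hp with rfl | rfl | rfl | rfl | rfl | rfl | rfl | rfl
        · exact P1.2
        · exact P2.2
        · exact P3.2
        · exact Q1.2
        · exact Q2.2
        · exact Q3.2
        · exact hqR
        · exact hq0R
      exact_mod_cast this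
    have hR1 : (1 : ℝ) ≤ R := by
      have := P1.1.one_lt
      have h2 := P1.2
      exact_mod_cast (by omega : 1 ≤ R)
    calc ∏ p ∈ s, (p : ℝ) ≤ ∏ _p ∈ s, (R : ℝ) := by
          apply Finset.prod_le_prod
          · intro i _; positivity
          · exact hRle
      _ = (R : ℝ) ^ s.card := by simp
      _ ≤ (R : ℝ) ^ 8 := pow_le_pow_right₀ hR1 hcard
  have key : |∑ p ∈ s, (c p : ℝ) / p| ≤ 4 * eta := by
    rw [hsum, e1, e2, e3, e4, e5, e6, e7, e8]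
    push_cast
    have hid : (c1 - a1 : ℝ) / q1 + ((c2 - a2) / q2 + ((c3 - a3) / q3 + ((b1 - d1) / r1 +
        ((b2 - d2) / r2 + ((b3 - d3) / r3 + ((c4 - d4) / q + (b4 - a4) / q0)))))) =
        -(al q1 - al q2 - al q3 + al q - ((c1 : ℝ) / q1 + c2 / q2 + c3 / q3 + c4 / q)) +
        (al r1 - al r2 - al r3 + al q - ((d1 : ℝ) / r1 + d2 / r2 + d3 / r3 + d4 / q)) +
        (al q1 - al q2 - al q3 + al q0 - ((a1 : ℝ) / q1 + a2 / q2 + a3 / q3 + a4 / q0)) -
        (al r1 - al r2 - al r3 + al q0 - ((b1 : ℝ) / r1 + b2 / r2 + b3 / r3 + b4 / q0)) := by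
      ring
    rw [hid]
    rw [abs_le] at ha hb hc hd ⊢
    constructor <;> linarith [ha.1, ha.2, hb.1, hb.2, hc.1, hc.2, hd.1, hd.2]
  have hlt : |∑ p ∈ s, (c p : ℝ) / p| * ∏ p ∈ s, (p : ℝ) < 1 := by
    have h0 : (0 : ℝ) ≤ ∏ p ∈ s, (p : ℝ) := Finset.prod_nonneg (fun i _ => by positivity)
    calc |∑ p ∈ s, (c p : ℝ) / p| * ∏ p ∈ s, (p : ℝ) ≤ (4 * eta) * (R : ℝ) ^ 8 := by
          apply mul_le_mul key hsR h0; positivity
      _ < 1 := hR
  have hdv := hP s c hsp hlt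
  have D1 := hdv q1 (by simp [hs])
  have D2 := hdv q2 (by simp [hs])
  have D3 := hdv q3 (by simp [hs])
  rw [e1] at D1
  rw [e2] at D2
  rw [e3] at D3
  obtain ⟨u1, hu1⟩ := div_int_of_dvd P1.1.pos D1
  obtain ⟨u2, hu2⟩ := div_int_of_dvd P2.1.pos D2
  obtain ⟨u3, hu3⟩ := div_int_of_dvd P3.1.pos D3
  refine ⟨c4 + q * (u1 + u2 + u3), ?_, ?_⟩
  · intro hdiv
    apply hc4
    exact (Int.dvd_add_left (Dvd.intro _ rfl)).mp hdiv
  · have hq0' : (q : ℝ) ≠ 0 := by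
      have := hqp.pos
      positivity
    push_cast at hu1 hu2 hu3 ⊢
    have hsplit : ((c4 : ℝ) + q * (u1 + u2 + u3)) / q = c4 / q + (u1 + u2 + u3) := by
      field_simp
    rw [hsplit]
    have h1 : (u1 : ℝ) = (c1 : ℝ) / q1 - a1 / q1 := by rw [← hu1]; ring
    have h2 : (u2 : ℝ) = (c2 : ℝ) / q2 - a2 / q2 := by rw [← hu2]; ring
    have h3 : (u3 : ℝ) = (c3 : ℝ) / q3 - a3 / q3 := by rw [← hu3]; ring
    rw [h1, h2, h3]
    rw [show al q - (-(al q1 - al q2 - al q3) + ((a1 : ℝ) / q1 + a2 / q2 + a3 / q3)) -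
      ((c4 : ℝ) / q + ((c1 : ℝ) / q1 - a1 / q1 + ((c2 : ℝ) / q2 - a2 / q2) +
        ((c3 : ℝ) / q3 - a3 / q3)))
      = al q1 - al q2 - al q3 + al q - ((c1 : ℝ) / q1 + c2 / q2 + c3 / q3 + c4 / q) by ring]
    exact hc

end Pool.Agent.H3.BES
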