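import Pool.Agent.H21.BS.Targets
import Pool.Agent.H3.BES.NBR
import Pool.Agent.H4.BES.PFR
import Pool.Agent.H46.BES.INJ
import Pool.Agent.H54.BES.BIN
import Pool.Agent.H14.BES.GRE
import Pool.Agent.H14.BES.CSB

/-!
# Clusters: every assignment of frequencies has a representative with few bad quadruples
-/

set_option autoImplicit false

open Finset Pool.Agent.H6.N4D

namespace Pool.Agent.H3.BES

lemma bad_badQ {N : ℕ} {κ : ℝ} {α : ℕ → ℝ} {q : Fin 4 → ℕ} (hp : ∀ j, (q j).Prime)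
    (h : Pool.Agent.H21.BS.Bad N κ α q) : BadQ α (1 / (κ * N)) (q 0) (q 1) (q 2) (q 3) := by
  obtain ⟨b, hb, hn⟩ := h
  obtain ⟨k, hk⟩ := exists_int (α (q 0) - α (q 1) - α (q 2) + α (q 3) - ∑ j, (b j : ℝ) / q j)
  refine ⟨b 0 + q 0 * k, b 1, b 2, b 3, ?_, hb 1, hb 2, hb 3, ?_⟩
  · intro hd
    exact hb 0 ((Int.dvd_add_left (Dvd.intro _ rfl)).mp hd)
  · have hq0 : (q 0 : ℝ) ≠ 0 := by
      have := (hp 0).pos
      positivity
    rw [← hk, Fin.sum_univ_four] at hn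
    push_cast
    rw [show α (q 0) - α (q 1) - α (q 2) + α (q 3) -
      (((b 0 : ℝ) + q 0 * k) / q 0 + (b 1 : ℝ) / q 1 + (b 2 : ℝ) / q 2 + (b 3 : ℝ) / q 3) =
      α (q 0) - α (q 1) - α (q 2) + α (q 3) -
        ((b 0 : ℝ) / q 0 + (b 1 : ℝ) / q 1 + (b 2 : ℝ) / q 2 + (b 3 : ℝ) / q 3) - k by
      field_simp
      ring]
    exact hn

lemma sum_pi4 (Q : Finset ℕ) (f : ℕ → ℕ → ℕ → ℕ → ℝ) :
    ∑ q ∈ Fintype.piFinset (fun _ : Fin 4 => Q), f (q 0) (q 1) (q 2) (q 3) =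
      ∑ a ∈ Q, ∑ b ∈ Q, ∑ c ∈ Q, ∑ d ∈ Q, f a b c d := by
  have : ∑ a ∈ Q, ∑ b ∈ Q, ∑ c ∈ Q, ∑ d ∈ Q, f a b c d =
      ∑ t ∈ Q ×ˢ (Q ×ˢ (Q ×ˢ Q)), f t.1 t.2.1 t.2.2.1 t.2.2.2 := by
    rw [sum_product]
    refine sum_congr rfl fun a _ => ?_
    rw [sum_product]
    refine sum_congr rfl fun b _ => ?_
    rw [sum_product]
  rw [this]
  refine Finset.sum_nbij' (fun q => (q 0, q 1, q 2, q 3))
    (fun t => ![t.1, t.2.1, t.2.2.1, t.2.2.2]) ?_ ?_ ?_ ?_ ?_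
  · intro q hq
    rw [Fintype.mem_piFinset] at hq
    simp [hq 0, hq 1, hq 2, hq 3]
  · intro t ht
    simp only [mem_product] at ht
    rw [Fintype.mem_piFinset]
    intro j
    fin_cases j
    · exact ht.1
    · exact ht.2.1
    · exact ht.2.2.1
    · exact ht.2.2.2
  · intro q _
    funext j
    fin_cases j <;> rfl
  · intro t _
    rfl
  · intro q _
    rfl

open Classical in
theorem badmass_le {N : ℕ} {κ : ℝ} {Q : Finset ℕ} {α : ℕ → ℝ} (hp : ∀ q ∈ Q, q.Prime) :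
    Pool.Agent.H21.BS.badmass N κ Q α ≤
      ∑ q1 ∈ Q, ∑ q2 ∈ Q, ∑ q3 ∈ Q, ∑ q ∈ Q,
        (if Dist4 q1 q2 q3 q ∧ BadQ α (1 / (κ * N)) q1 q2 q3 q then
          (1 : ℝ) / q1 * (1 / q2) * (1 / q3) * (1 / q) else 0) := by
  rw [← sum_pi4 Q (fun q1 q2 q3 q =>
    (if Dist4 q1 q2 q3 q ∧ BadQ α (1 / (κ * N)) q1 q2 q3 q then
          (1 : ℝ) / q1 * (1 / q2) * (1 / q3) * (1 / q) else 0))]
  unfold Pool.Agent.H21.BS.badmass
  rw [sum_filter]
  refine sum_le_sum fun q hq => ?_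
  rw [Fintype.mem_piFinset] at hq
  by_cases h : Function.Injective q ∧ Pool.Agent.H21.BS.Bad N κ α q
  · have hD : Dist4 (q 0) (q 1) (q 2) (q 3) := by
      have hi := h.1
      refine ⟨?_, ?_, ?_, ?_, ?_, ?_⟩ <;> exact fun hh => by simpa using hi hh
    have hB := bad_badQ (fun j => hp _ (hq j)) h.2
    have h1 : Dist4 (q 0) (q 1) (q 2) (q 3) ∧
      BadQ α (1 / (κ * N)) (q 0) (q 1) (q 2) (q 3) := ⟨hD, hB⟩
    rw [if_pos h, if_pos h1, Fin.prod_univ_four]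
  · rw [if_neg h]
    split_ifs
    · positivity
    · exact le_rfl

theorem clu : Pool.Agent.H21.BS.T_CLU := by
  classical
  intro W ε hε
  set A : ℝ := max W 1 with hA
  set e1 : ℝ := min ε 1 with he1
  have hA1 : 1 ≤ A := le_max_right _ _
  have hA0 : 0 < A := by linarith
  have he0 : 0 < e1 := lt_min hε one_pos
  have he11 : e1 ≤ 1 := min_le_right _ _
  have heε : e1 ≤ ε := min_le_left _ _
  refine ⟨80 * A ^ 15 / e1 + 18 * A ^ 7 + 1, by positivity, ?_⟩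
  intro N P κ Q β hp hP hq200 hW hκ hκ1 hκN hC
  by_cases hQ : Q = ∅
  · subst hQ
    refine ⟨β, by simp, ?_⟩
    have := badmass_le (N := N) (κ := κ) (Q := ∅) (α := β) (by simp)
    simp at this
    linarith
  obtain ⟨qm, hqm⟩ := Finset.nonempty_iff_ne_empty.mpr hQ
  -- R
  obtain ⟨R, hRQ, hRmax⟩ := Finset.exists_max_image Q id ⟨qm, hqm⟩
  simp only [id] at hRmax
  have hR2 : 2 ≤ R := (hp R hRQ).two_le
  have hRN : R ^ 200 ≤ N := hq200 R hRQ
  have hN1 : 1 ≤ N := le_trans (Nat.one_le_pow _ _ (by omega)) hRN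
  have hNpos : (0 : ℝ) < N := by exact_mod_cast hN1
  have hPpos : (0 : ℝ) < P := by
    by_contra hneg
    have : (P : ℝ) ≤ 0 := not_lt.mp hneg
    have h2 : κ ^ 5 * P ≤ 0 := mul_nonpos_of_nonneg_of_nonpos (by positivity) this
    have h3 : (0 : ℝ) < 80 * A ^ 15 / e1 + 18 * A ^ 7 + 1 := by positivity
    linarith
  set η : ℝ := 1 / (κ * N) with hη
  have hκNpos : 0 < κ * N := by positivity
  have hηpos : 0 < η := by positivity
  have hRr : (2 : ℝ) ≤ R := by exact_mod_cast hR2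
  have hRNr : (R : ℝ) ^ 200 ≤ N := by exact_mod_cast hRN
  have hk100 : (R : ℝ) ^ 100 ≤ κ * N := by
    have h1 : ((R : ℝ) ^ 100) ^ 2 ≤ (κ * N) ^ 2 := by
      calc ((R : ℝ) ^ 100) ^ 2 = (R : ℝ) ^ 200 := by ring
        _ ≤ (N : ℝ) := hRNr
        _ = 1 * (N : ℝ) := by ring
        _ ≤ (κ ^ 2 * N) * N := mul_le_mul_of_nonneg_right hκN hNpos.le
        _ = (κ * N) ^ 2 := by ring
    exact (pow_le_pow_iff_left₀ (by positivity) hκNpos.le (by norm_num)).mp h1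
  have hη8 : 4 * η * (R : ℝ) ^ 8 < 1 := by
    rw [hη]
    rw [show 4 * (1 / (κ * N)) * (R : ℝ) ^ 8 = 4 * (R : ℝ) ^ 8 / (κ * N) by ring]
    rw [div_lt_one hκNpos]
    calc 4 * (R : ℝ) ^ 8 < (R : ℝ) ^ 92 * (R : ℝ) ^ 8 := by
          apply mul_lt_mul_of_pos_right _ (by positivity)
          calc (4 : ℝ) < 2 ^ 92 := by norm_num
            _ ≤ (R : ℝ) ^ 92 := pow_le_pow_left₀ (by norm_num) hRr 92
      _ = (R : ℝ) ^ 100 := by ring
      _ ≤ κ * N := hk100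
  have hη2 : 2 * η * (R : ℝ) ^ 2 < 1 := by
    have : (R : ℝ) ^ 2 ≤ (R : ℝ) ^ 8 := pow_le_pow_right₀ (by linarith) (by norm_num)
    nlinarith [hηpos, this, hη8, mul_le_mul_of_nonneg_left this hηpos.le,
      mul_nonneg hηpos.le (show (0 : ℝ) ≤ (R : ℝ) ^ 2 by positivity)]
  set lam0 : ℝ := κ ^ 2 / (2 * A ^ 7) with hlam0
  have hlam0pos : 0 < lam0 := by positivity
  set k' : ℝ := lam0 / 2 * (e1 * κ / 5) with hk'
  have hk'pos : 0 < k' := by positivity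
  set h : ℝ := e1 / N with hh
  have hhpos : 0 < h := by positivity
  have hhη : h ≤ η := by
    rw [hh, hη, div_le_div_iff₀ hNpos hκNpos]
    have : e1 * κ ≤ 1 := by
      calc e1 * κ ≤ 1 * 1 := mul_le_mul he11 hκ1 hκ.le (by norm_num)
        _ = 1 := by ring
    nlinarith
  set w : ℕ → ℝ := fun q => 1 / (q : ℝ) with hw
  have hw0 : ∀ q ∈ Q, 0 ≤ w q := fun q _ => by simp only [hw]; positivity
  have hwP : ∀ q ∈ Q, w q ≤ 1 / P := by
    intro q hq
    simp only [hw]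
    apply one_div_le_one_div_of_le hPpos
    exact_mod_cast hP q hq
  have hwA : ∑ q ∈ Q, w q ≤ A := le_trans hW (le_max_left _ _)
  obtain ⟨Qr, V, al, hQrQ, hVk, hal, halr, hrest⟩ :=
    Pool.Agent.H14.BES.clu_GRE (fun x q => ∃ b : ℤ, |x - β q - (b : ℝ) / q| ≤ h) w β k' Q
      hk'pos hw0
  have hhε : h ≤ ε / N := by
    rw [hh]
    exact div_le_div_of_nonneg_right heε hNpos.le
  refine ⟨al, ?_, ?_⟩
  · intro q hq
    by_cases hqr : q ∈ Qr
    · refine ⟨0, ?_⟩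
      rw [halr q hqr]
      simp only [sub_self, Int.cast_zero, zero_div]
      have : nd 0 ≤ |(0 : ℝ)| := nd_le_abs 0
      simp at this
      linarith [this, hhpos]
    · obtain ⟨b, hb⟩ := (hal q hq hqr).2
      exact ⟨b, le_trans (nd_le_abs _) (le_trans hb hhε)⟩
  by_contra hcon
  rw [not_le] at hcon
  set B : ℕ → ℕ → ℕ → ℕ → Prop := fun q1 q2 q3 q => Dist4 q1 q2 q3 q ∧ BadQ al η q1 q2 q3 q
    with hB
  have hbig : κ < ∑ q1 ∈ Q, ∑ q2 ∈ Q, ∑ q3 ∈ Q, ∑ q ∈ Q,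
      (if B q1 q2 q3 q then w q1 * w q2 * w q3 * w q else 0) := by
    refine lt_of_lt_of_le hcon ?_
    exact badmass_le hp
  have hκ5 : κ ^ 5 ≤ κ ^ 2 := pow_le_pow_of_le_one hκ.le hκ1 (by norm_num)
  have hC1 : 18 * A ^ 7 ≤ κ ^ 2 * P := by
    have h1 : 0 < 80 * A ^ 15 / e1 := by positivity
    have h2 : κ ^ 5 * P ≤ κ ^ 2 * P := mul_le_mul_of_nonneg_right hκ5 hPpos.le
    linarith
  have hC2 : 80 * A ^ 15 / e1 ≤ κ ^ 5 * P := by
    have h1 : 0 < 18 * A ^ 7 := by positivity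
    linarith
  obtain ⟨q1, hq1, q2, hq2, q3, hq3, r1, hr1, r2, hr2, r3, hr3, hdis, hmass⟩ :=
    Pool.Agent.H14.BES.clu_CSB Q w A (1 / P) κ B hA0 hκ (by positivity)
      (fun q hq => ⟨hw0 q hq, hwP q hq⟩) hwA (by
        rw [mul_one_div, div_le_iff₀ hPpos]
        linarith) (by convert hbig)
  set M := Q.filter (fun q => B q1 q2 q3 q ∧ B r1 r2 r3 q) with hM
  have hmass' : lam0 ≤ ∑ q ∈ M, w q := by
    rw [hM, hlam0]
    convert hmass
  have hMpos : 0 < ∑ q ∈ M, w q := lt_of_lt_of_le hlam0pos hmass'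
  have hMne : M.Nonempty := by
    by_contra hne
    rw [Finset.not_nonempty_iff_eq_empty] at hne
    rw [hne] at hMpos
    simp at hMpos
  obtain ⟨q0, hq0⟩ := hMne
  have hq0' := (mem_filter.mp hq0).2
  obtain ⟨⟨⟨d12, d13, -, d23, -, -⟩, -⟩, ⟨⟨g12, g13, -, g23, -, -⟩, -⟩⟩ := hq0'
  obtain ⟨x, hx⟩ := clu_NBR Pool.Agent.H4.BES.clu_PFR al η R q1 q2 q3 r1 r2 r3 M hηpos.le hη8
    (by
      intro q hq
      simp only [mem_insert, mem_singleton] at hq
      have hqQ : q ∈ Q := by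
        rcases hq with rfl | rfl | rfl | rfl | rfl | rfl <;> assumption
      exact ⟨hp q hqQ, hRmax q hqQ⟩)
    ⟨d12, d13, d23⟩ ⟨g12, g13, g23⟩ hdis
    (by
      intro q hq
      have hq' := mem_filter.mp hq
      obtain ⟨hqQ, ⟨⟨-, -, a1, -, a2, a3⟩, hb1⟩, ⟨⟨-, -, b1, -, b2, b3⟩, hb2⟩⟩ := hq'
      refine ⟨hp q hqQ, hRmax q hqQ, ?_, hb1, hb2⟩
      simp only [mem_insert, mem_singleton, not_or]
      exact ⟨Ne.symm a1, Ne.symm a2, Ne.symm a3, Ne.symm b1, Ne.symm b2, Ne.symm b3⟩)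
  choose! a ha using hx
  -- the clustered part
  set M1 := M.filter (fun q => q ∉ Qr) with hM1
  set M2 := M.filter (fun q => q ∈ Qr) with hM2
  have hsplit : ∑ q ∈ M, w q = ∑ q ∈ M2, w q + ∑ q ∈ M1, w q := by
    rw [hM1, hM2]
    exact (sum_filter_add_sum_filter_not M (fun q => q ∈ Qr) w).symm
  have hMQ : ∀ q ∈ M, q ∈ Q := fun q hq => (mem_filter.mp hq).1
  have hcard : M1.card ≤ V.card := by
    apply Finset.card_le_card_of_injOn al
    · intro q hq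
      have hq' := mem_filter.mp (Finset.mem_coe.mp hq)
      exact (hal q (hMQ q hq'.1) hq'.2).1
    · intro q hq r hr hqr
      by_contra hne
      have hq' := mem_filter.mp (Finset.mem_coe.mp hq)
      have hr' := mem_filter.mp (Finset.mem_coe.mp hr)
      have hqQ := hMQ q hq'.1
      have hrQ := hMQ r hr'.1
      exact Pool.Agent.H46.BES.clu_INJ al η x R q r (hp q hqQ) (hp r hrQ) hne (hRmax q hqQ)
        (hRmax r hrQ) hη2 ⟨a q, ha q hq'.1⟩ ⟨a r, ha r hr'.1⟩ hqr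
  have hmass1 : ∑ q ∈ M1, w q ≤ lam0 / 2 := by
    have h1 : ∑ q ∈ M1, w q ≤ M1.card * (1 / P) := by
      calc ∑ q ∈ M1, w q ≤ ∑ _q ∈ M1, (1 / P : ℝ) :=
            sum_le_sum fun q hq => hwP q (hMQ q (mem_filter.mp hq).1)
        _ = M1.card * (1 / P) := by simp
    have h2 : (M1.card : ℝ) ≤ V.card := by exact_mod_cast hcard
    have h3 : (V.card : ℝ) ≤ A / k' := by
      rw [le_div_iff₀ hk'pos]
      exact le_trans hVk hwA
    calc ∑ q ∈ M1, w q ≤ M1.card * (1 / P) := h1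
      _ ≤ A / k' * (1 / P) := by
          apply mul_le_mul_of_nonneg_right (le_trans h2 h3) (by positivity)
      _ ≤ lam0 / 2 := by
          rw [div_mul_div_comm, mul_one, div_le_iff₀ (by positivity)]
          have h4 : lam0 / 2 * (k' * P) = κ ^ 5 * P * (e1 / (80 * A ^ 14)) := by
            rw [hk', hlam0]
            field_simp
            ring
          rw [h4]
          calc A = 80 * A ^ 15 / e1 * (e1 / (80 * A ^ 14)) := by
                field_simp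
            _ ≤ κ ^ 5 * P * (e1 / (80 * A ^ 14)) :=
                mul_le_mul_of_nonneg_right hC2 (by positivity)
  have hmass2 : lam0 / 2 ≤ ∑ q ∈ M2, w q := by linarith [hsplit, hmass1, hmass']
  obtain ⟨t, ht⟩ := Pool.Agent.H54.BES.clu_BIN M2 w (fun q => β q - x - (a q : ℝ) / q) η h hhpos
    hhη (by
      intro q hq
      have hq' := mem_filter.mp hq
      refine ⟨hw0 q (hMQ q hq'.1), ?_⟩
      have := (ha q hq'.1).2
      rw [halr q hq'.2] at this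
      exact this)
  have hlow : k' ≤ ∑ q ∈ M2.filter (fun q => |β q - x - (a q : ℝ) / q - t| ≤ h), w q := by
    refine le_trans ?_ ht
    have h5 : h / (5 * η) = e1 * κ / 5 := by
      rw [hh, hη]
      field_simp
    rw [h5, hk']
    exact mul_le_mul_of_nonneg_right hmass2 (by positivity)
  have hsub : M2.filter (fun q => |β q - x - (a q : ℝ) / q - t| ≤ h) ⊆
      Qr.filter (fun q => ∃ b : ℤ, |(x + t) - β q - (b : ℝ) / q| ≤ h) := by
    intro q hq
    obtain ⟨hq2, hq3⟩ := mem_filter.mp hq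
    refine mem_filter.mpr ⟨(mem_filter.mp hq2).2, -(a q), ?_⟩
    push_cast
    rw [show x + t - β q - -(a q : ℝ) / q = -(β q - x - (a q : ℝ) / q - t) by ring, abs_neg]
    exact hq3
  have hup := hrest (x + t)
  have hle : ∑ q ∈ M2.filter (fun q => |β q - x - (a q : ℝ) / q - t| ≤ h), w q ≤
      ∑ q ∈ Qr.filter (fun q => ∃ b : ℤ, |(x + t) - β q - (b : ℝ) / q| ≤ h), w q := by
    apply sum_le_sum_of_subset_of_nonneg hsub
    intro q hq _
    exact hw0 q (hQrQ (mem_filter.mp hq).1)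
  linarith

end Pool.Agent.H3.BES
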