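import Mathlib

/-!
# N4 (MP_c59857_nt), section BES, clusters: definitions

Bad quadruples of primes for an assignment of frequencies, their mass, and lifts.
-/

open Finset

namespace Pool.Agent.H3.BES

/-- The quadruple (q1, q2, q3, q4) is bad for the frequencies `al`: the alternating sum of the four
frequencies is within `eta` of a sum of four fractions a_j / q_j, no a_j divisible by q_j. -/
def BadQ (al : ℕ → ℝ) (eta : ℝ) (q1 q2 q3 q4 : ℕ) : Prop :=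
  ∃ a1 a2 a3 a4 : ℤ, ¬ ((q1 : ℤ) ∣ a1) ∧ ¬ ((q2 : ℤ) ∣ a2) ∧ ¬ ((q3 : ℤ) ∣ a3) ∧
    ¬ ((q4 : ℤ) ∣ a4) ∧
    |al q1 - al q2 - al q3 + al q4 -
      ((a1 : ℝ) / q1 + (a2 : ℝ) / q2 + (a3 : ℝ) / q3 + (a4 : ℝ) / q4)| ≤ eta

/-- Four pairwise distinct numbers. -/
def Dist4 (q1 q2 q3 q4 : ℕ) : Prop :=
  q1 ≠ q2 ∧ q1 ≠ q3 ∧ q1 ≠ q4 ∧ q2 ≠ q3 ∧ q2 ≠ q4 ∧ q3 ≠ q4

open Classical in
/-- Mass (weights 1/q) of the bad quadruples of pairwise distinct elements of Q. -/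
noncomputable def NCmass (Q : Finset ℕ) (al : ℕ → ℝ) (eta : ℝ) : ℝ :=
  ∑ q1 ∈ Q, ∑ q2 ∈ Q, ∑ q3 ∈ Q, ∑ q4 ∈ Q,
    if Dist4 q1 q2 q3 q4 ∧ BadQ al eta q1 q2 q3 q4 then
      (1 : ℝ) / q1 * (1 / q2) * (1 / q3) * (1 / q4) else 0

/-- `x` is within `h` of a lift b + a / q of the frequency b modulo 1 / q. -/
def Lift (h x b : ℝ) (q : ℕ) : Prop := ∃ a : ℤ, |x - b - (a : ℝ) / q| ≤ h

/-- CLUSTERS: every assignment of frequencies has a representative without many bad quadruples. -/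
def T_CLU : Prop :=
  ∀ A : ℝ, 0 < A → ∃ C : ℝ, 0 < C ∧ ∀ (Q : Finset ℕ) (P R N : ℕ) (eps kap : ℝ),
    (∀ q ∈ Q, q.Prime ∧ P < q ∧ q ≤ R) → (∑ q ∈ Q, (1 : ℝ) / q) ≤ A →
    0 < eps → eps ≤ 1 → 0 < kap → kap ≤ 1 →
    16 * (R : ℝ) ^ 8 ≤ kap * N → C ≤ kap ^ 5 * eps * P →
    ∀ be : ℕ → ℝ, ∃ al : ℕ → ℝ,
      (∀ q ∈ Q, Lift (eps / N) (al q) (be q) q) ∧ NCmass Q al (1 / (kap * N)) ≤ kap

end Pool.Agent.H3.BES
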