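import Pool.Agent.H3.BES.SWT

/-!
# N4, section BES: one interval, elementary part
-/

set_option autoImplicit false

open Finset Pool.Agent.H6.N4D Pool.Agent.H93.EB

namespace Pool.Agent.H3.BES

/-- sums over a range of length a product -/
lemma sum_range_mul' {E : Type} [AddCommMonoid E] (f : ℕ → E) (ρ c : ℕ) :
    ∑ k ∈ range (ρ * c), f k = ∑ k ∈ range c, ∑ j ∈ range ρ, f (ρ * k + j) := by
  induction c with
  | zero => simp
  | succ c ih =>
    rw [sum_range_succ, ← ih, Nat.mul_succ]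
    exact Finset.sum_range_add f _ _

lemma sum_Ioc_range {E : Type} [AddCommMonoid E] (f : ℕ → E) (n N : ℕ) :
    ∑ x ∈ Ioc n (n + N), f x = ∑ x ∈ range N, f (n + 1 + x) := by
  induction N with
  | zero => simp
  | succ N ih =>
    rw [sum_range_succ, ← ih, ← add_assoc, sum_Ioc_succ_top (by omega)]
    congr 2
    omega

/-- the square of a mean of means -/
lemma norm_sq_mean (ρ N : ℕ) (S : ℕ → ℂ) :
    ‖(∑ j ∈ range ρ, S j) / ((ρ * N : ℕ) : ℂ)‖ ^ 2 ≤
      1 / (ρ : ℝ) * ∑ j ∈ range ρ, ‖S j / (N : ℂ)‖ ^ 2 := by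
  rcases Nat.eq_zero_or_pos ρ with hρ | hρ
  · subst hρ; simp
  rcases Nat.eq_zero_or_pos N with hN | hN
  · subst hN; simp
  have hρ' : (0 : ℝ) < ρ := by exact_mod_cast hρ
  have hN' : (0 : ℝ) < N := by exact_mod_cast hN
  have h1 : ‖∑ j ∈ range ρ, S j‖ ^ 2 ≤ ρ * ∑ j ∈ range ρ, ‖S j‖ ^ 2 := by
    calc ‖∑ j ∈ range ρ, S j‖ ^ 2 ≤ (∑ j ∈ range ρ, ‖S j‖) ^ 2 :=
          pow_le_pow_left₀ (norm_nonneg _) (norm_sum_le _ _) 2
      _ ≤ (range ρ).card * ∑ j ∈ range ρ, ‖S j‖ ^ 2 := sq_sum_le_card_mul_sum_sq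
      _ = ρ * ∑ j ∈ range ρ, ‖S j‖ ^ 2 := by simp
  have h2 : ∑ j ∈ range ρ, ‖S j / (N : ℂ)‖ ^ 2 = (∑ j ∈ range ρ, ‖S j‖ ^ 2) / (N : ℝ) ^ 2 := by
    rw [sum_div]
    refine sum_congr rfl fun j _ => ?_
    rw [norm_div, Complex.norm_natCast, div_pow]
  rw [h2, norm_div, Complex.norm_natCast, div_pow]
  push_cast
  rw [div_le_iff₀ (by positivity)]
  calc ‖∑ j ∈ range ρ, S j‖ ^ 2 ≤ ρ * ∑ j ∈ range ρ, ‖S j‖ ^ 2 := h1
    _ = 1 / (ρ : ℝ) * ((∑ j ∈ range ρ, ‖S j‖ ^ 2) / (N : ℝ) ^ 2) * (ρ * N) ^ 2 := by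
        field_simp

/-- the extension of a weight, constant outside the window, conjugated -/
noncomputable def cl (a N : ℕ) (g : ℕ → ℂ) (x : ℕ) : ℂ :=
  starRingEnd ℂ (g (max a (min x (a + N - 1))))

lemma cl_eq {a N : ℕ} (g : ℕ → ℂ) {x : ℕ} (hx : x < N) :
    starRingEnd ℂ (cl a N g (a + x)) = g (a + x) := by
  unfold cl
  rw [Complex.conj_conj]
  congr 1
  omega

lemma cl_BV {n M a N : ℕ} {g : ℕ → ℂ} (h : BV M n g) (hN : 1 ≤ N) (ha : n + 1 ≤ a)
    (haN : a + N ≤ n + 1 + M) : Pool.Agent.H21.BS.BV 10 a N (cl a N g) := by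
  constructor
  · intro x
    unfold cl
    rw [RCLike.norm_conj]
    apply h.bd
    rw [mem_Ioc]
    omega
  · have h1 : ∑ x ∈ range N, ‖cl a N g (a + x + 1) - cl a N g (a + x)‖ =
        ∑ x ∈ range (N - 1), ‖g (a + x + 1) - g (a + x)‖ := by
      obtain ⟨N', rfl⟩ : ∃ N', N = N' + 1 := ⟨N - 1, by omega⟩
      rw [sum_range_succ]
      have h2 : cl a (N' + 1) g (a + N' + 1) - cl a (N' + 1) g (a + N') = 0 := by
        unfold cl
        rw [sub_eq_zero]
        congr 2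
        omega
      rw [h2, norm_zero, add_zero]
      have h3 : N' + 1 - 1 = N' := by omega
      rw [h3]
      refine sum_congr rfl fun x hx => ?_
      rw [mem_range] at hx
      unfold cl
      rw [← map_sub, RCLike.norm_conj]
      congr 3 <;> omega
    rw [h1]
    refine le_trans ?_ h.tv
    have h4 : ∑ x ∈ range (N - 1), ‖g (a + x + 1) - g (a + x)‖ =
        ∑ y ∈ (range (N - 1)).image (fun x => a + x), ‖g (y + 1) - g y‖ := by
      rw [sum_image]
      intro x _ y _ hxy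
      simpa using hxy
    rw [h4]
    apply sum_le_sum_of_subset_of_nonneg
    · intro y hy
      rw [mem_image] at hy
      obtain ⟨x, hx, rfl⟩ := hy
      rw [mem_range] at hx
      rw [mem_Ioo]
      omega
    · intro y _ _
      exact norm_nonneg _

/-- one test function against the test of the window -/
lemma conj_test (lam : ℕ → ℝ) (q a N : ℕ) (α : ℝ) (g : ℕ → ℂ) {x : ℕ} (hx : x < N) :
    (lam (a + x) : ℂ) * starRingEnd ℂ (Pool.Agent.H21.BS.DD q (a + x) *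
      ee (α * ((a + x : ℕ) : ℝ)) * cl a N g (a + x)) =
    (lam (a + x) : ℂ) * (D q (a + x) : ℂ) * ee (-(α * ((a + x : ℕ) : ℝ))) * g (a + x) := by
  rw [map_mul, map_mul, cl_eq g hx]
  have h1 : starRingEnd ℂ (Pool.Agent.H21.BS.DD q (a + x)) = (D q (a + x) : ℂ) := by
    unfold Pool.Agent.H21.BS.DD D
    split_ifs <;> simp
  have h2 : starRingEnd ℂ (ee (α * ((a + x : ℕ) : ℝ))) = ee (-(α * ((a + x : ℕ) : ℝ))) := by
    unfold ee
    rw [← Complex.exp_conj]
    congr 1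
    rw [map_mul, Complex.conj_I, Complex.conj_ofReal]
    push_cast
    ring
  rw [h1, h2]
  ring

end Pool.Agent.H3.BES
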