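import Pool.Agent.H3.BES.OneA

/-!
# N4, section BES: one interval, the system of windows
-/

set_option autoImplicit false

open Finset Pool.Agent.H6.N4D Pool.Agent.H93.EB

namespace Pool.Agent.H3.BES

/-- half exponents -/
def ex (s : ℕ) (m : ℕ → ℕ) (i : ℕ) : ℕ := if i = 0 then s / 2 else m (i - 1) / 2

/-- the start of the window of level m (i - 1) which contains the window k of level i -/
def par (m : ℕ → ℕ) (u i k : ℕ) : ℕ := u + k / 2 ^ (m (i - 1) % 2) * 2 ^ m (i - 1)

/-- the system of windows -/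
noncomputable def SS (K s u : ℕ) (m : ℕ → ℕ) (α : ℕ → ℕ → ℕ → ℝ) (g : ℕ → ℕ → ℕ → ℕ → ℂ) :
    Pool.Agent.H21.BS.Sys where
  K := K
  T := 2
  U := u + 1
  s := fun i => 2 ^ ex s m i
  Q := fun i => QQ (m (i - 1))
  κ := fun i => kp (m (i - 1))
  P := fun i => 2 ^ (m (i - 1) / 400)
  α := fun i k q => α (i - 1) (par m u i k) q
  g := fun i k q => cl (u + 1 + k * (2 ^ ex s m i) ^ 2) ((2 ^ ex s m i) ^ 2)
    (g (i - 1) (par m u i k) q)

lemma two_pow_half (m : ℕ) : 2 ^ m = 2 ^ (m % 2) * (2 ^ (m / 2)) ^ 2 := by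
  rw [← pow_mul, ← pow_add]
  congr 1
  omega

lemma mem_QQ {m q : ℕ} : q ∈ QQ m ↔ (2 ^ (m / 400) < q ∧ q ≤ 2 ^ (m / 200)) ∧ q.Prime := by
  unfold QQ
  rw [mem_filter, mem_Ioc]

lemma QQ_200 {m q : ℕ} (h : q ∈ QQ m) : q ^ 200 ≤ (2 ^ (m / 2)) ^ 2 := by
  have h1 := (mem_QQ.mp h).1.2
  calc q ^ 200 ≤ (2 ^ (m / 200)) ^ 200 := Nat.pow_le_pow_left h1 200
    _ = 2 ^ (m / 200 * 200) := by rw [pow_mul]
    _ ≤ 2 ^ (m / 2 * 2) := Nat.pow_le_pow_right (by norm_num) (by omega)
    _ = (2 ^ (m / 2)) ^ 2 := by rw [pow_mul]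

lemma mono_of_step {K : ℕ} {m : ℕ → ℕ} (h : ∀ i, i + 1 < K → 2400 * m i ≤ m (i + 1)) :
    ∀ j i, i ≤ j → j < K → m i ≤ m j := by
  intro j
  induction j with
  | zero => intro i hi _; simp at hi; simp [hi]
  | succ j ih =>
    intro i hi hj
    rcases Nat.lt_or_ge i (j + 1) with h1 | h1
    · have := ih i (by omega) (by omega)
      have := h j hj
      omega
    · have : i = j + 1 := by omega
      rw [this]

lemma kp_pos (m : ℕ) : 0 < kp m := by unfold kp; positivity

lemma kp_le_one (m : ℕ) : kp m ≤ 1 := by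
  unfold kp
  exact pow_le_one₀ (by norm_num) (by norm_num)

lemma SS_ok {W : ℝ} {K s u : ℕ} {m : ℕ → ℕ} {α : ℕ → ℕ → ℕ → ℝ} {g : ℕ → ℕ → ℕ → ℕ → ℂ}
    (hK : 1 ≤ K) (hW : ∀ j, ∑ q ∈ QQ j, 1 / (q : ℝ) ≤ W)
    (hm0 : 2400 * s ≤ m 0) (hm : ∀ i, i + 1 < K → 2400 * m i ≤ m (i + 1))
    (hg : ∀ i < K, ∀ n, ∀ q ∈ QQ (m i), BV (2 ^ m i) n (g i n q))
    (hN : ∀ i < K, ∀ n, NC (m i) (α i n)) : (SS K s u m α g).Ok W := by
  refine ⟨by simp [SS], ?_, ?_, ?_, ?_, ?_⟩
  · intro i _
    simp only [SS]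
    exact Nat.one_le_two_pow
  · intro i hi
    simp only [SS] at hi ⊢
    apply pow_dvd_pow
    have h4 : i + 1 - 1 = i := by omega
    have h5 : ex s m (i + 1) = m i / 2 := by
      unfold ex
      rw [if_neg (by omega), h4]
    rw [h5]
    unfold ex
    split_ifs with h1
    · subst h1
      omega
    · have := hm (i - 1) (by omega)
      have h3 : i - 1 + 1 = i := by omega
      rw [h3] at this
      omega
  · intro i hi1 hiK k hk
    simp only [SS] at hiK
    have hi' : i - 1 < K := by omega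
    have hex : ex s m i = m (i - 1) / 2 := by
      unfold ex
      rw [if_neg (by omega)]
    refine ⟨?_, ?_, ?_, ?_, ?_, ?_, ?_, ?_, ?_, ?_, ?_⟩
    · intro q hq
      exact (mem_QQ.mp hq).2
    · intro q hq
      exact (mem_QQ.mp hq).1.1.le
    · intro q hq
      have := QQ_200 hq
      show q ^ 200 ≤ (2 ^ ex s m i) ^ 2
      rw [hex]
      exact this
    · exact hW _
    · exact Nat.one_le_two_pow
    · exact kp_pos _
    · exact kp_le_one _
    · show 1 ≤ kp (m (i - 1)) ^ 2 * (((2 ^ ex s m i) ^ 2 : ℕ) : ℝ)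
      rw [hex]
      have h1 : (1 : ℝ) ≤ kp (m (i - 1)) * 2 ^ (m (i - 1) / 2) := by
        unfold kp
        rw [one_div, inv_pow, inv_mul_eq_div, le_div_iff₀ (by positivity), one_mul]
        exact pow_le_pow_right₀ (by norm_num) (by omega)
      push_cast
      calc (1 : ℝ) = 1 ^ 2 := by norm_num
        _ ≤ (kp (m (i - 1)) * 2 ^ (m (i - 1) / 2)) ^ 2 := pow_le_pow_left₀ (by norm_num) h1 2
        _ = kp (m (i - 1)) ^ 2 * (2 ^ (m (i - 1) / 2)) ^ 2 := by rw [mul_pow]
    · intro q hq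
      show Pool.Agent.H21.BS.BV 10 (u + 1 + k * (2 ^ ex s m i) ^ 2) ((2 ^ ex s m i) ^ 2)
        (cl (u + 1 + k * (2 ^ ex s m i) ^ 2) ((2 ^ ex s m i) ^ 2) (g (i - 1) (par m u i k) q))
      apply cl_BV (hg (i - 1) hi' (par m u i k) q hq)
      · exact Nat.one_le_two_pow.trans (by nlinarith [Nat.one_le_two_pow (n := ex s m i)])
      · unfold par
        rw [hex]
        have h1 := two_pow_half (m (i - 1))
        set ρ := 2 ^ (m (i - 1) % 2)
        set N := (2 ^ (m (i - 1) / 2)) ^ 2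
        rw [h1]
        have h2 : k / ρ * ρ ≤ k := Nat.div_mul_le_self k ρ
        have h3 : k / ρ * (ρ * N) = k / ρ * ρ * N := by ring
        have h4 : k / ρ * ρ * N ≤ k * N := Nat.mul_le_mul_right N h2
        omega
      · unfold par
        rw [hex]
        have h1 := two_pow_half (m (i - 1))
        have hρ : 0 < 2 ^ (m (i - 1) % 2) := by positivity
        set ρ := 2 ^ (m (i - 1) % 2)
        set N := (2 ^ (m (i - 1) / 2)) ^ 2
        rw [h1]
        have h2 : k + 1 ≤ k / ρ * ρ + ρ := by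
          have := Nat.lt_div_mul_add hρ (a := k)
          omega
        have h3 : (k + 1) * N ≤ (k / ρ * ρ + ρ) * N := Nat.mul_le_mul_right N h2
        have h5 : (k + 1) * N = k * N + N := by ring
        have h6 : (k / ρ * ρ + ρ) * N = k / ρ * (ρ * N) + ρ * N := by ring
        omega
    · have := hN (i - 1) hi' (par m u i k)
      unfold NC at this
      have h4 : (4 : ℕ) ^ (m (i - 1) / 2) = (2 ^ ex s m i) ^ 2 := by
        rw [hex, ← pow_mul, mul_comm (m (i - 1) / 2) 2, pow_mul]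
        norm_num
      rw [h4] at this
      exact this
    · intro q _
      show ‖(0 : ℕ → ℂ) q‖ ≤ 3
      simp
  · intro i hi
    simp only [SS] at hi ⊢
    have h1 : i + 1 - 1 = i := by omega
    rw [h1]
    have h2 : ex s m i ≤ m i / 2400 := by
      unfold ex
      split_ifs with h3
      · subst h3
        omega
      · have := hm (i - 1) (by omega)
        have h4 : i - 1 + 1 = i := by omega
        rw [h4] at this
        omega
    unfold kp
    push_cast
    rw [one_div, inv_pow, inv_mul_eq_div, div_le_one (by positivity)]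
    exact pow_le_pow_right₀ (by norm_num) h2
  · intro i hi
    simp only [SS] at hi ⊢
    have h1 : i + 1 - 1 = i := by omega
    rw [h1]
    apply Nat.pow_le_pow_right (by norm_num)
    unfold ex
    split_ifs with h3
    · subst h3
      omega
    · have := hm (i - 1) (by omega)
      have h4 : i - 1 + 1 = i := by omega
      rw [h4] at this
      omega

end Pool.Agent.H3.BES
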