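import Pool.Agent.H3.BES.OneB

/-!
# N4, section BES: one interval, the energy and the tests
-/

set_option autoImplicit false

open Finset Pool.Agent.H6.N4D Pool.Agent.H93.EB

namespace Pool.Agent.H3.BES

lemma zz_sq_le (lam : ℕ → ℝ) (q ρ N n : ℕ) (α : ℝ) (g : ℕ → ℂ) :
    zz lam q (ρ * N) n α g ^ 2 ≤ 1 / (ρ : ℝ) * ∑ j ∈ range ρ,
      ‖(∑ x ∈ range N, (lam (n + 1 + j * N + x) : ℂ) * (D q (n + 1 + j * N + x) : ℂ) *
        ee (-(α * ((n + 1 + j * N + x : ℕ) : ℝ))) * g (n + 1 + j * N + x)) / (N : ℂ)‖ ^ 2 := by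
  unfold zz
  have h1 : ∑ x ∈ Ioc n (n + ρ * N), (lam x : ℂ) * (D q x : ℂ) * ee (-(α * x)) * g x =
      ∑ j ∈ range ρ, ∑ x ∈ range N, (lam (n + 1 + j * N + x) : ℂ) *
        (D q (n + 1 + j * N + x) : ℂ) * ee (-(α * ((n + 1 + j * N + x : ℕ) : ℝ))) *
          g (n + 1 + j * N + x) := by
    rw [sum_Ioc_range, mul_comm ρ N, sum_range_mul']
    refine sum_congr rfl fun j _ => sum_congr rfl fun x _ => ?_
    have : n + 1 + (N * j + x) = n + 1 + j * N + x := by ring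
    rw [this]
  rw [h1]
  exact norm_sq_mean ρ N _

section

variable {K s u : ℕ} {m : ℕ → ℕ} {α : ℕ → ℕ → ℕ → ℝ} {g : ℕ → ℕ → ℕ → ℕ → ℂ}

lemma SS_N (i : ℕ) : (SS K s u m α g).N i = (2 ^ ex s m i) ^ 2 := rfl

lemma SS_Z (lam : ℕ → ℝ) (i k q : ℕ) :
    (SS K s u m α g).Z (fun n => (lam n : ℂ)) i k q =
      ‖(∑ x ∈ range ((2 ^ ex s m i) ^ 2),
        (lam (u + 1 + k * (2 ^ ex s m i) ^ 2 + x) : ℂ) *
        (D q (u + 1 + k * (2 ^ ex s m i) ^ 2 + x) : ℂ) *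
        ee (-(α (i - 1) (par m u i k) q * ((u + 1 + k * (2 ^ ex s m i) ^ 2 + x : ℕ) : ℝ))) *
          g (i - 1) (par m u i k) q (u + 1 + k * (2 ^ ex s m i) ^ 2 + x)) /
        (((2 ^ ex s m i) ^ 2 : ℕ) : ℂ)‖ := by
  unfold Pool.Agent.H21.BS.Sys.Z Pool.Agent.H21.BS.av
  rw [SS_N]
  congr 2
  refine sum_congr rfl fun x hx => ?_
  rw [mem_range] at hx
  exact conj_test lam q (u + 1 + k * (2 ^ ex s m i) ^ 2) ((2 ^ ex s m i) ^ 2)
    (α (i - 1) (par m u i k) q) (g (i - 1) (par m u i k) q) hx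

lemma SS_L (hK : 1 ≤ K) : (SS K s u m α g).L = 2 ^ (2 * (m (K - 1) / 2) + 1) := by
  unfold Pool.Agent.H21.BS.Sys.L
  simp only [SS]
  have h1 : ex s m K = m (K - 1) / 2 := by
    unfold ex
    rw [if_neg (by omega)]
  rw [h1, ← pow_mul, ← pow_succ']
  congr 1
  ring

/-- the tests of one true window -/
lemma Phi_le (lam : ℕ → ℝ) (j k' : ℕ) :
    Phi lam (m j) (α j (u + k' * 2 ^ m j)) (g j (u + k' * 2 ^ m j)) (u + k' * 2 ^ m j) ≤
      1 / ((2 ^ (m j % 2) : ℕ) : ℝ) * ∑ i ∈ range (2 ^ (m j % 2)),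
        ∑ q ∈ QQ (m j), 1 / (q : ℝ) *
          (SS K s u m α g).Z (fun n => (lam n : ℂ)) (j + 1) (2 ^ (m j % 2) * k' + i) q ^ 2 := by
  unfold Phi
  rw [sum_comm, mul_sum]
  refine sum_le_sum fun q _ => ?_
  rw [← mul_sum]
  have hq : (0 : ℝ) ≤ 1 / q := by positivity
  have h0 : 1 / ((2 ^ (m j % 2) : ℕ) : ℝ) * (1 / (q : ℝ) * ∑ i ∈ range (2 ^ (m j % 2)),
      (SS K s u m α g).Z (fun n => (lam n : ℂ)) (j + 1) (2 ^ (m j % 2) * k' + i) q ^ 2) =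
      1 / (q : ℝ) * (1 / ((2 ^ (m j % 2) : ℕ) : ℝ) * ∑ i ∈ range (2 ^ (m j % 2)),
      (SS K s u m α g).Z (fun n => (lam n : ℂ)) (j + 1) (2 ^ (m j % 2) * k' + i) q ^ 2) := by
    ring
  rw [h0]
  apply mul_le_mul_of_nonneg_left _ hq
  have hex : ex s m (j + 1) = m j / 2 := by
    unfold ex
    rw [if_neg (by omega)]
    congr 1
  have h1 := zz_sq_le lam q (2 ^ (m j % 2)) ((2 ^ (m j / 2)) ^ 2) (u + k' * 2 ^ m j)
    (α j (u + k' * 2 ^ m j) q) (g j (u + k' * 2 ^ m j) q)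
  rw [← two_pow_half] at h1
  refine h1.trans (le_of_eq ?_)
  congr 1
  refine sum_congr rfl fun i hi => ?_
  rw [mem_range] at hi
  rw [SS_Z, hex]
  have h2 : par m u (j + 1) (2 ^ (m j % 2) * k' + i) = u + k' * 2 ^ m j := by
    unfold par
    have h3 : j + 1 - 1 = j := by omega
    rw [h3]
    have h4 : (2 ^ (m j % 2) * k' + i) / 2 ^ (m j % 2) = k' := by
      rw [Nat.mul_add_div (by positivity), Nat.div_eq_of_lt hi, add_zero]
    rw [h4]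
  have h5 : u + 1 + (2 ^ (m j % 2) * k' + i) * (2 ^ (m j / 2)) ^ 2 =
      u + k' * 2 ^ m j + 1 + i * (2 ^ (m j / 2)) ^ 2 := by
    conv_rhs => rw [two_pow_half (m j)]
    ring
  have h3 : j + 1 - 1 = j := by omega
  rw [h2, h5, h3]

/-- the energy of one level -/
lemma level_le (lam : ℕ → ℝ) {j : ℕ} (hdvd : 2 ^ m j ∣ (SS K s u m α g).L)
    (hLpos : 0 < (SS K s u m α g).L) :
    (2 : ℝ) ^ m j / ((SS K s u m α g).L : ℝ) * ∑ k ∈ range ((SS K s u m α g).L / 2 ^ m j),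
        Phi lam (m j) (α j (u + k * 2 ^ m j)) (g j (u + k * 2 ^ m j)) (u + k * 2 ^ m j) ≤
      ((SS K s u m α g).N (j + 1) : ℝ) / (SS K s u m α g).L *
        ∑ k ∈ range ((SS K s u m α g).cnt (j + 1)), ∑ q ∈ (SS K s u m α g).Q (j + 1),
          1 / (q : ℝ) * (SS K s u m α g).Z (fun n => (lam n : ℂ)) (j + 1) k q ^ 2 := by
  set S := SS K s u m α g with hS
  have hex : ex s m (j + 1) = m j / 2 := by
    unfold ex
    rw [if_neg (by omega)]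
    congr 1
  have hN : S.N (j + 1) = (2 ^ (m j / 2)) ^ 2 := by rw [hS, SS_N, hex]
  have hQ : S.Q (j + 1) = QQ (m j) := rfl
  set ρ := 2 ^ (m j % 2) with hρ
  set N := (2 ^ (m j / 2)) ^ 2 with hNd
  have hρpos : 0 < ρ := by positivity
  have hNpos : 0 < N := by positivity
  have hM : 2 ^ m j = ρ * N := two_pow_half (m j)
  have hcnt : S.cnt (j + 1) = ρ * (S.L / 2 ^ m j) := by
    unfold Pool.Agent.H21.BS.Sys.cnt
    rw [hN]
    obtain ⟨c, hc⟩ := hdvd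
    rw [hc, Nat.mul_div_cancel_left _ (by positivity), hM]
    have : ρ * N * c = N * (ρ * c) := by ring
    rw [this, Nat.mul_div_cancel_left _ hNpos]
  have hMr : (2 : ℝ) ^ m j = (ρ : ℝ) * N := by
    have := congrArg (Nat.cast : ℕ → ℝ) hM
    push_cast at this
    exact_mod_cast this
  have hLr : (0 : ℝ) < S.L := by exact_mod_cast hLpos
  have hρr : (0 : ℝ) < ρ := by exact_mod_cast hρpos
  rw [hcnt, hN, hQ, sum_range_mul', hMr]
  calc (ρ : ℝ) * N / S.L * ∑ k ∈ range (S.L / 2 ^ m j),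
        Phi lam (m j) (α j (u + k * 2 ^ m j)) (g j (u + k * 2 ^ m j)) (u + k * 2 ^ m j)
      ≤ (ρ : ℝ) * N / S.L * ∑ k ∈ range (S.L / 2 ^ m j), (1 / (ρ : ℝ) * ∑ i ∈ range ρ,
        ∑ q ∈ QQ (m j), 1 / (q : ℝ) *
          S.Z (fun n => (lam n : ℂ)) (j + 1) (ρ * k + i) q ^ 2) := by
        apply mul_le_mul_of_nonneg_left _ (by positivity)
        refine sum_le_sum fun k _ => ?_
        have := Phi_le (K := K) (s := s) (u := u) (m := m) (α := α) (g := g) lam j k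
        exact this
    _ = (N : ℝ) / S.L * ∑ k ∈ range (S.L / 2 ^ m j), ∑ i ∈ range ρ,
        ∑ q ∈ QQ (m j), 1 / (q : ℝ) *
          S.Z (fun n => (lam n : ℂ)) (j + 1) (ρ * k + i) q ^ 2 := by
        rw [← mul_sum, ← mul_assoc]
        congr 1
        field_simp

end

end Pool.Agent.H3.BES
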