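import Pool.Agent.H3.BES.Defs

/-!
# N4 (MP_c59857_nt), section BES, clusters: targets of the rows
-/

open Finset

namespace Pool.Agent.H3.BES

open Classical in
/-- ROW GRE, greedy clusters. -/
def T_GRE : Prop :=
  ∀ (c : ℝ → ℕ → Prop) (w be : ℕ → ℝ) (k : ℝ) (Q : Finset ℕ), 0 < k → (∀ q ∈ Q, 0 ≤ w q) →
    ∃ (Qr : Finset ℕ) (V : Finset ℝ) (al : ℕ → ℝ), Qr ⊆ Q ∧
      (V.card : ℝ) * k ≤ ∑ q ∈ Q, w q ∧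
      (∀ q ∈ Q, q ∉ Qr → al q ∈ V ∧ c (al q) q) ∧ (∀ q ∈ Qr, al q = be q) ∧
      ∀ x : ℝ, ∑ q ∈ Qr.filter (fun q => c x q), w q < k

open Classical in
/-- ROW CSB, Cauchy-Schwarz: many quadruples give two disjoint triples with many common neighbours. -/
def T_CSB : Prop :=
  ∀ (Q : Finset ℕ) (w : ℕ → ℝ) (A p k : ℝ) (B : ℕ → ℕ → ℕ → ℕ → Prop),
    0 < A → 0 < k → 0 ≤ p → (∀ q ∈ Q, 0 ≤ w q ∧ w q ≤ p) → ∑ q ∈ Q, w q ≤ A →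
    18 * A ^ 7 * p ≤ k ^ 2 →
    k < ∑ q1 ∈ Q, ∑ q2 ∈ Q, ∑ q3 ∈ Q, ∑ q ∈ Q,
      (if B q1 q2 q3 q then w q1 * w q2 * w q3 * w q else 0) →
    ∃ q1 ∈ Q, ∃ q2 ∈ Q, ∃ q3 ∈ Q, ∃ r1 ∈ Q, ∃ r2 ∈ Q, ∃ r3 ∈ Q,
      (q1 ≠ r1 ∧ q1 ≠ r2 ∧ q1 ≠ r3 ∧ q2 ≠ r1 ∧ q2 ≠ r2 ∧ q2 ≠ r3 ∧ q3 ≠ r1 ∧ q3 ≠ r2 ∧ q3 ≠ r3) ∧
      k ^ 2 / (2 * A ^ 7) ≤ ∑ q ∈ Q.filter (fun q => B q1 q2 q3 q ∧ B r1 r2 r3 q), w q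

/-- ROW PFR, partial fractions: a sum of fractions c_p / p (distinct primes) which is smaller than
1 / (product of the primes) has all c_p divisible by p. -/
def T_PFR : Prop :=
  ∀ (s : Finset ℕ) (c : ℕ → ℤ), (∀ p ∈ s, p.Prime) →
    |∑ p ∈ s, (c p : ℝ) / p| * ∏ p ∈ s, (p : ℝ) < 1 → ∀ p ∈ s, (p : ℤ) ∣ c p

/-- ROW NBR, common neighbours of two disjoint triples: one common number modulo 1 / q. -/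
def T_NBR : Prop :=
  ∀ (al : ℕ → ℝ) (eta : ℝ) (R q1 q2 q3 r1 r2 r3 : ℕ) (N : Finset ℕ),
    0 ≤ eta → 4 * eta * (R : ℝ) ^ 8 < 1 →
    (∀ q ∈ ({q1, q2, q3, r1, r2, r3} : Finset ℕ), q.Prime ∧ q ≤ R) →
    (q1 ≠ q2 ∧ q1 ≠ q3 ∧ q2 ≠ q3) → (r1 ≠ r2 ∧ r1 ≠ r3 ∧ r2 ≠ r3) →
    (q1 ≠ r1 ∧ q1 ≠ r2 ∧ q1 ≠ r3 ∧ q2 ≠ r1 ∧ q2 ≠ r2 ∧ q2 ≠ r3 ∧ q3 ≠ r1 ∧ q3 ≠ r2 ∧ q3 ≠ r3) →
    (∀ q ∈ N, q.Prime ∧ q ≤ R ∧ q ∉ ({q1, q2, q3, r1, r2, r3} : Finset ℕ) ∧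
      BadQ al eta q1 q2 q3 q ∧ BadQ al eta r1 r2 r3 q) →
    ∃ x : ℝ, ∀ q ∈ N, ∃ a : ℤ, ¬ ((q : ℤ) ∣ a) ∧ |al q - x - (a : ℝ) / q| ≤ eta

/-- ROW INJ: the frequencies of two common neighbours differ. -/
def T_INJ : Prop :=
  ∀ (al : ℕ → ℝ) (eta x : ℝ) (R q r : ℕ), q.Prime → r.Prime → q ≠ r → q ≤ R → r ≤ R →
    2 * eta * (R : ℝ) ^ 2 < 1 →
    (∃ a : ℤ, ¬ ((q : ℤ) ∣ a) ∧ |al q - x - (a : ℝ) / q| ≤ eta) →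
    (∃ a : ℤ, ¬ ((r : ℤ) ∣ a) ∧ |al r - x - (a : ℝ) / r| ≤ eta) → al q ≠ al r

open Classical in
/-- ROW BIN: pigeonhole into intervals of radius h. -/
def T_BIN : Prop :=
  ∀ (M : Finset ℕ) (w de : ℕ → ℝ) (eta h : ℝ), 0 < h → h ≤ eta →
    (∀ q ∈ M, 0 ≤ w q ∧ |de q| ≤ eta) →
    ∃ t : ℝ, (∑ q ∈ M, w q) * (h / (5 * eta)) ≤ ∑ q ∈ M.filter (fun q => |de q - t| ≤ h), w q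

end Pool.Agent.H3.BES
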